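import Mathlib

/-!
Definitions for the problem on corona, ker, the independence number and odd cycles.
The independence number `G.indepNum` and the predicate `G.IsMaximumIndepSet` are Mathlib's.
-/

set_option autoImplicit false

namespace Pool.Agent.Work.MP_7e5e3f_co

open SimpleGraph

variable {V : Type*}

/-- `corona G`: the union of all maximum independent sets of `G`. -/
def corona [Finite V] (G : SimpleGraph V) : Set V :=
  {v | ∃ S : Finset V, G.IsMaximumIndepSet S ∧ v ∈ S}

/-- `nbr G X` is `N(X)`: the vertices adjacent to at least one vertex of `X`. -/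
def nbr (G : SimpleGraph V) (X : Set V) : Set V := {v | ∃ x ∈ X, G.Adj x v}

/-- `diff G X` is `d_G(X) = |X| - |N(X)|`. -/
noncomputable def diff (G : SimpleGraph V) (X : Set V) : ℤ :=
  (X.ncard : ℤ) - ((nbr G X).ncard : ℤ)

/-- Critical independent set: an independent set whose difference is largest among all
independent sets. -/
def IsCriticalIndep (G : SimpleGraph V) (X : Set V) : Prop :=
  G.IsIndepSet X ∧ ∀ Y : Set V, G.IsIndepSet Y → diff G Y ≤ diff G X

/-- `ker G`: the intersection of all critical independent sets of `G`. -/
def ker (G : SimpleGraph V) : Set V := {v | ∀ X : Set V, IsCriticalIndep G X → v ∈ X}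

/-- The odd cycles of `G`, each recorded as its set of edges. -/
def oddCycles (G : SimpleGraph V) : Set (Set (Sym2 V)) :=
  {E | ∃ (v : V) (p : G.Walk v v), p.IsCycle ∧ Odd p.length ∧ {e | e ∈ p.edges} = E}

/-- `D G`: the vertices left uncovered by at least one maximum matching of `G`.  Matchings are
Mathlib's `SimpleGraph.Subgraph.IsMatching`, and maximality is in the number of edges. -/
def missed (G : SimpleGraph V) : Set V :=
  {v | ∃ M : G.Subgraph, M.IsMatching ∧
    (∀ M' : G.Subgraph, M'.IsMatching → M'.edgeSet.ncard ≤ M.edgeSet.ncard) ∧ v ∉ M.verts}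

/-- The largest number of pairwise vertex-disjoint odd cycles of `G`. -/
noncomputable def maxDisjointOddCycles (G : SimpleGraph V) : ℕ :=
  sSup {n | ∃ F : Finset (Set V), F.card = n ∧
    (∀ S ∈ F, ∃ (v : V) (p : G.Walk v v), p.IsCycle ∧ Odd p.length ∧ {x | x ∈ p.support} = S) ∧
    (F : Set (Set V)).PairwiseDisjoint id}

end Pool.Agent.Work.MP_7e5e3f_co
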