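import Mathlib

set_option autoImplicit false

namespace Pool.Agent.Work.MP_7e5e3f_co

open SimpleGraph

variable {V : Type*} {G : SimpleGraph V}

/-- A walk is a path or contains a nonempty closed piece. -/
lemma isPath_or_split {u v : V} (p : G.Walk u v) :
    p.IsPath ∨ ∃ (x : V) (a : G.Walk u x) (c : G.Walk x x) (b : G.Walk x v),
      p = a.append (c.append b) ∧ 0 < c.length := by
  classical
  induction p with
  | nil => left; exact Walk.IsPath.nil
  | @cons u w v h p ih =>
    rcases ih with hp | ⟨x, a, c, b, hpe, hc⟩
    · by_cases hu : u ∈ p.support
      · right
        refine ⟨u, Walk.nil, Walk.cons h (p.takeUntil u hu), p.dropUntil u hu, ?_, ?_⟩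
        · simp [Walk.cons_append, Walk.take_spec]
        · simp
      · left
        exact Walk.IsPath.cons hp hu
    · right
      refine ⟨x, Walk.cons h a, c, b, ?_, hc⟩
      rw [hpe, Walk.cons_append]

/-- An odd closed walk yields an odd cycle. -/
lemma exists_odd_cycle_of_odd_closed (n : ℕ) : ∀ (u : V) (w : G.Walk u u), w.length = n → Odd n →
    ∃ (v : V) (p : G.Walk v v), p.IsCycle ∧ Odd p.length := by
  classical
  induction n using Nat.strong_induction_on with
  | _ n ih =>
    intro u w hw hn
    cases w with
    | nil =>
      simp at hw
      subst hw
      simp at hn
    | @cons _ v _ h p =>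
      rcases isPath_or_split p with hp | ⟨x, a, c, b, hpe, hc⟩
      · by_cases he : s(u, v) ∈ p.edges
        · -- the path from v to u uses the edge uv, so has length one
          exfalso
          have hlen : p.length = 1 := by
            cases p with
            | nil => exact absurd h (G.loopless.irrefl _)
            | @cons _ w _ h' q =>
              rw [Walk.cons_isPath_iff] at hp
              rw [Walk.edges_cons, List.mem_cons] at he
              rcases he with he | he
              · have : w = u := by
                  rw [Sym2.eq_iff] at he
                  rcases he with ⟨h1, h2⟩ | ⟨h1, h2⟩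
                  · exact absurd h1 h.ne
                  · exact h1.symm
                subst this
                have hnil : q.Nil := Walk.isPath_iff_nil.1 hp.1
                rw [Walk.length_cons, Walk.length_eq_zero_iff.2 hnil]
              · exact absurd (Walk.snd_mem_support_of_mem_edges q he) hp.2
          rw [Walk.length_cons, hlen] at hw
          subst hw
          exact absurd hn (by decide)
        · exact ⟨u, Walk.cons h p, (Walk.cons_isCycle_iff p h).2 ⟨hp, he⟩, by rw [hw]; exact hn⟩
      · rw [Walk.length_cons, hpe, Walk.length_append, Walk.length_append] at hw
        rcases Nat.even_or_odd c.length with hce | hco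
        · -- remove c
          have hlt : a.length + b.length + 1 < n := by omega
          refine ih _ hlt u (Walk.cons h (a.append b)) ?_ ?_
          · simp [Walk.length_append]
          · have : a.length + b.length + 1 + c.length = n := by omega
            rw [← this] at hn
            exact (Nat.odd_add.1 hn).2 hce
        · have hlt : c.length < n := by omega
          exact ih _ hlt x c rfl hco

/-- A graph without odd cycles is two-colourable. -/
lemma two_colorable_of_no_odd_cycle
    (h : ∀ (v : V) (p : G.Walk v v), p.IsCycle → ¬ Odd p.length) : G.Colorable 2 := by
  rw [SimpleGraph.two_colorable_iff_forall_loop_even]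
  intro u w
  by_contra hne
  rw [Nat.not_even_iff_odd] at hne
  obtain ⟨v, p, hp, hpo⟩ := exists_odd_cycle_of_odd_closed _ u w rfl hne
  exact h v p hp hpo

end Pool.Agent.Work.MP_7e5e3f_co
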