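import Mathlib
import Pool.Agent.Work.MP_7e5e3f_co.Defs
import Pool.Agent.Work.MP_7e5e3f_co.OddCycle

set_option autoImplicit false
set_option linter.unusedSectionVars false

namespace Pool.Agent.Work.MP_7e5e3f_co

open SimpleGraph

variable {V : Type*}

lemma exists_critical [Finite V] (G : SimpleGraph V) : ∃ X, IsCriticalIndep G X := by
  classical
  have hfin : Set.Finite {X : Set V | G.IsIndepSet X} := Set.toFinite _
  obtain ⟨X, hX, hmax⟩ := Set.exists_max_image {X : Set V | G.IsIndepSet X} (diff G) hfin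
    ⟨∅, by simp [SimpleGraph.IsIndepSet]⟩
  exact ⟨X, hX, fun Y hY => hmax Y hY⟩

section crit

variable [Finite V] {G : SimpleGraph V} {I : Set V}

lemma not_adj_of_indep {S : Set V} (hS : G.IsIndepSet S) {x y : V} (hx : x ∈ S) (hy : y ∈ S) :
    ¬ G.Adj x y := by
  intro h
  exact hS hx hy h.ne h

lemma indep_disjoint_nbr {S : Set V} (hS : G.IsIndepSet S) {x : V} (hx : x ∈ S) :
    x ∉ nbr G S := by
  rintro ⟨y, hy, hyx⟩
  exact not_adj_of_indep hS hy hx hyx

lemma hall (hI : IsCriticalIndep G I) {Y : Set V} (hY : Y ⊆ nbr G I) :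
    Y.ncard ≤ (nbr G Y ∩ I).ncard := by
  have hJ : G.IsIndepSet (I \ nbr G Y) := hI.1.mono Set.sdiff_subset
  have h1 := hI.2 _ hJ
  have hsub : nbr G (I \ nbr G Y) ⊆ nbr G I \ Y := by
    rintro v ⟨x, hx, hxv⟩
    refine ⟨⟨x, hx.1, hxv⟩, fun hvY => hx.2 ⟨v, hvY, hxv.symm⟩⟩
  have h2 : (nbr G (I \ nbr G Y)).ncard ≤ (nbr G I \ Y).ncard :=
    Set.ncard_le_ncard hsub (Set.toFinite _)
  have h3 : (nbr G I \ Y).ncard + Y.ncard = (nbr G I).ncard :=
    Set.ncard_sdiff_add_ncard_of_subset hY (Set.toFinite _)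
  have h4 : (I ∩ nbr G Y).ncard + (I \ nbr G Y).ncard = I.ncard :=
    Set.ncard_inter_add_ncard_sdiff_eq_ncard I (nbr G Y) (Set.toFinite _)
  rw [Set.inter_comm] at h4
  unfold diff at h1
  omega

lemma disj_I_N (hI : IsCriticalIndep G I) {x : V} (hx : x ∈ I) : x ∉ nbr G I :=
  indep_disjoint_nbr hI.1 hx

lemma inter_N_le (hI : IsCriticalIndep G I) {S : Set V} (hS : G.IsIndepSet S) :
    (S ∩ nbr G I).ncard ≤ (I \ S).ncard := by
  refine (hall hI Set.inter_subset_right).trans (Set.ncard_le_ncard ?_ (Set.toFinite _))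
  rintro x ⟨⟨y, hy, hyx⟩, hxI⟩
  exact ⟨hxI, fun hxS => not_adj_of_indep hS hy.1 hxS hyx⟩

/-- Splitting a set along `I`, `N(I)` and the rest. -/
lemma split_card (hI : IsCriticalIndep G I) (S : Set V) :
    S.ncard = (S ∩ I).ncard + (S ∩ nbr G I).ncard + (S \ (I ∪ nbr G I)).ncard := by
  have h1 : (S ∩ (I ∪ nbr G I)).ncard + (S \ (I ∪ nbr G I)).ncard = S.ncard :=
    Set.ncard_inter_add_ncard_sdiff_eq_ncard S _ (Set.toFinite _)
  have h2 : S ∩ (I ∪ nbr G I) = (S ∩ I) ∪ (S ∩ nbr G I) := Set.inter_union_distrib_left _ _ _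
  have h3 : (S ∩ I ∪ S ∩ nbr G I).ncard = (S ∩ I).ncard + (S ∩ nbr G I).ncard := by
    apply Set.ncard_union_eq _ (Set.toFinite _) (Set.toFinite _)
    rw [Set.disjoint_left]
    intro x hx hx'
    exact disj_I_N hI hx.2 hx'.2
  rw [h2, h3] at h1
  omega

lemma card_le_alpha {S : Set V} (hS : G.IsIndepSet S) : S.ncard ≤ G.indepNum := by
  classical
  have := Fintype.ofFinite V
  have h : G.IsIndepSet (S.toFinset : Set V) := by simpa using hS
  have := h.card_le_indepNum
  rwa [Set.ncard_eq_toFinset_card'] 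

/-- Adding `I` to an independent set avoiding `I ∪ N(I)`. -/
lemma union_indep (hI : IsCriticalIndep G I) {A : Set V} (hA : G.IsIndepSet A)
    (hd : ∀ x ∈ A, x ∉ I ∪ nbr G I) : G.IsIndepSet (A ∪ I) := by
  intro x hx y hy hxy hadj
  rcases hx with hx | hx <;> rcases hy with hy | hy
  · exact hA hx hy hxy hadj
  · exact hd x hx (Or.inr ⟨y, hy, hadj.symm⟩)
  · exact hd y hy (Or.inr ⟨x, hx, hadj⟩)
  · exact hI.1 hx hy hxy hadj

lemma union_card_le (hI : IsCriticalIndep G I) {A : Set V} (hA : G.IsIndepSet A)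
    (hd : ∀ x ∈ A, x ∉ I ∪ nbr G I) : A.ncard + I.ncard ≤ G.indepNum := by
  have h1 := card_le_alpha (union_indep hI hA hd)
  rwa [Set.ncard_union_eq _ (Set.toFinite _) (Set.toFinite _)] at h1
  rw [Set.disjoint_left]
  intro x hx hx'
  exact hd x hx (Or.inl hx')

lemma max_inter_N (hI : IsCriticalIndep G I) {S : Finset V} (hS : G.IsMaximumIndepSet S) :
    (I \ (S : Set V)).ncard ≤ ((S : Set V) ∩ nbr G I).ncard := by
  have h1 := union_card_le hI (A := (S : Set V) \ (I ∪ nbr G I))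
    (hS.isIndepSet.mono Set.sdiff_subset) (fun x hx => hx.2)
  have h2 := split_card hI (S : Set V)
  have h3 : (S : Set V).ncard = G.indepNum := by
    rw [Set.ncard_coe_finset]
    exact G.maximumIndepSet_card_eq_indepNum S hS
  have h4 : (I ∩ (S : Set V)).ncard + (I \ (S : Set V)).ncard = I.ncard :=
    Set.ncard_inter_add_ncard_sdiff_eq_ncard I _ (Set.toFinite _)
  rw [Set.inter_comm] at h4
  omega

/-- `ker G` is contained in every maximum independent set. -/
lemma ker_subset (hI : IsCriticalIndep G I) {S : Finset V} (hS : G.IsMaximumIndepSet S) :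
    ker G ⊆ (S : Set V) := by
  have hcrit : IsCriticalIndep G ((S : Set V) ∩ I) := by
    refine ⟨hI.1.mono Set.inter_subset_right, fun Y hY => (hI.2 Y hY).trans ?_⟩
    have hsub : nbr G ((S : Set V) ∩ I) ⊆ nbr G I \ ((S : Set V) ∩ nbr G I) := by
      rintro v ⟨x, hx, hxv⟩
      refine ⟨⟨x, hx.2, hxv⟩, fun hv => ?_⟩
      exact not_adj_of_indep hS.isIndepSet hx.1 hv.1 hxv
    have h2 := Set.ncard_le_ncard hsub (Set.toFinite _)
    have h3 : (nbr G I \ ((S : Set V) ∩ nbr G I)).ncard + ((S : Set V) ∩ nbr G I).ncard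
        = (nbr G I).ncard :=
      Set.ncard_sdiff_add_ncard_of_subset Set.inter_subset_right (Set.toFinite _)
    have h4 : (I ∩ (S : Set V)).ncard + (I \ (S : Set V)).ncard = I.ncard :=
      Set.ncard_inter_add_ncard_sdiff_eq_ncard I _ (Set.toFinite _)
    rw [Set.inter_comm] at h4
    have h5 := max_inter_N hI hS
    unfold diff
    omega
  intro v hv
  exact (hv _ hcrit).1

lemma corona_N_le (hI : IsCriticalIndep G I) :
    (corona G ∩ nbr G I).ncard + (ker G).ncard ≤ I.ncard := by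
  have h1 := hall hI (Y := corona G ∩ nbr G I) Set.inter_subset_right
  have h2 : nbr G (corona G ∩ nbr G I) ∩ I ⊆ I \ ker G := by
    rintro x ⟨⟨y, hy, hyx⟩, hxI⟩
    refine ⟨hxI, fun hxk => ?_⟩
    obtain ⟨S, hS, hyS⟩ := hy.1
    exact not_adj_of_indep hS.isIndepSet (by exact_mod_cast hyS) (ker_subset hI hS hxk) hyx
  have h3 := Set.ncard_le_ncard h2 (Set.toFinite _)
  have h4 : (I \ ker G).ncard + (ker G).ncard = I.ncard :=
    Set.ncard_sdiff_add_ncard_of_subset (fun v hv => hv I hI) (Set.toFinite _)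
  omega

/-- Main inequality with a set meeting all odd cycles. -/
lemma main_transversal (T : Set V)
    (hT : ∀ (v : V) (p : G.Walk v v), p.IsCycle → Odd p.length → ∃ x ∈ p.support, x ∈ T) :
    (corona G).ncard + (ker G).ncard ≤ 2 * G.indepNum + T.ncard := by
  classical
  obtain ⟨I, hI⟩ := exists_critical G
  set W : Set V := (I ∪ nbr G I)ᶜ \ T with hW
  have hcol : (G.induce W).Colorable 2 := by
    apply two_colorable_of_no_odd_cycle
    intro v p hp hpo
    obtain ⟨x, hx, hxT⟩ := hT _ (p.map (Embedding.induce (G := G) W).toHom)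
      (hp.map (Embedding.induce (G := G) W).injective) (by rw [Walk.length_map]; exact hpo)
    rw [Walk.support_map, List.mem_map] at hx
    obtain ⟨y, _, hy⟩ := hx
    have : (y : V) = x := hy
    rw [← this] at hxT
    exact y.2.2 hxT
  obtain ⟨c⟩ := hcol
  let A : Set V := {x | ∃ h : x ∈ W, c ⟨x, h⟩ = 0}
  let B : Set V := {x | ∃ h : x ∈ W, c ⟨x, h⟩ = 1}
  have hA : G.IsIndepSet A := by
    rintro x ⟨hx, hcx⟩ y ⟨hy, hcy⟩ _ hadj
    have : (G.induce W).Adj ⟨x, hx⟩ ⟨y, hy⟩ := hadj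
    exact c.valid this (hcx.trans hcy.symm)
  have hB : G.IsIndepSet B := by
    rintro x ⟨hx, hcx⟩ y ⟨hy, hcy⟩ _ hadj
    have : (G.induce W).Adj ⟨x, hx⟩ ⟨y, hy⟩ := hadj
    exact c.valid this (hcx.trans hcy.symm)
  have hcover : W ⊆ A ∪ B := by
    intro x hx
    have h01 : c ⟨x, hx⟩ = 0 ∨ c ⟨x, hx⟩ = 1 := by
      generalize c ⟨x, hx⟩ = z
      fin_cases z <;> simp
    rcases h01 with h | h
    · exact Or.inl ⟨hx, h⟩
    · exact Or.inr ⟨hx, h⟩
  have hA' := union_card_le hI hA (fun x ⟨hx, _⟩ => hx.1)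
  have hB' := union_card_le hI hB (fun x ⟨hx, _⟩ => hx.1)
  have h1 : ((corona G) \ (I ∪ nbr G I)).ncard ≤ A.ncard + B.ncard + T.ncard := by
    have hs : (corona G) \ (I ∪ nbr G I) ⊆ (A ∪ B) ∪ T := by
      intro x hx
      by_cases hxT : x ∈ T
      · exact Or.inr hxT
      · exact Or.inl (hcover ⟨hx.2, hxT⟩)
    refine (Set.ncard_le_ncard hs (Set.toFinite _)).trans ?_
    refine (Set.ncard_union_le _ _).trans ?_
    have := Set.ncard_union_le A B
    omega
  have h2 := corona_N_le hI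
  have h3 := split_card hI (corona G)
  have h4 : (corona G ∩ I).ncard ≤ I.ncard :=
    Set.ncard_le_ncard Set.inter_subset_right (Set.toFinite _)
  omega

end crit

/-- The inequality with the number of odd cycles. -/
theorem main [Finite V] (G : SimpleGraph V) :
    (corona G).ncard + (ker G).ncard ≤ 2 * G.indepNum + (oddCycles G).ncard := by
  classical
  rcases isEmpty_or_nonempty V with hV | hV
  · have h1 : corona G = ∅ := Set.eq_empty_of_isEmpty _
    have h2 : ker G = ∅ := Set.eq_empty_of_isEmpty _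
    rw [h1, h2, Set.ncard_empty]
    omega
  -- choose a vertex on each odd cycle
  have hch : ∀ E ∈ oddCycles G, ∃ x : V, ∃ (v : V) (p : G.Walk v v), p.IsCycle ∧
      {e | e ∈ p.edges} = E ∧ x ∈ p.support := by
    rintro E ⟨v, p, hp, _, hE⟩
    exact ⟨v, v, p, hp, hE, p.start_mem_support⟩
  choose! f hf using hch
  have hfin : (oddCycles G).Finite := Set.toFinite _
  have hle : (f '' oddCycles G).ncard ≤ (oddCycles G).ncard := Set.ncard_image_le hfin
  refine (main_transversal (G := G) (f '' oddCycles G) ?_).trans (by omega)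
  intro v p hp hpo
  have hE : {e | e ∈ p.edges} ∈ oddCycles G := ⟨v, p, hp, hpo, rfl⟩
  obtain ⟨w, q, hq, hqe, hx⟩ := hf _ hE
  refine ⟨f {e | e ∈ p.edges}, ?_, Set.mem_image_of_mem _ hE⟩
  -- the chosen vertex lies on an edge of q, hence on an edge of p
  rcases q.mem_support_iff_exists_mem_edges.1 hx with h | ⟨e, he, hxe⟩
  · -- the vertex is the base point of q
    have hne : ¬ q.Nil := hq.not_nil
    have hedge : s(w, q.snd) ∈ q.edges := by
      exact Walk.mk_start_snd_mem_edges hne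
    have : s(w, q.snd) ∈ p.edges := by
      have : s(w, q.snd) ∈ {e | e ∈ q.edges} := hedge
      rw [hqe] at this
      exact this
    rw [h]
    exact Walk.fst_mem_support_of_mem_edges p this
  · have : e ∈ p.edges := by
      have : e ∈ {e | e ∈ q.edges} := he
      rw [hqe] at this
      exact this
    exact Walk.mem_support_of_mem_edges this hxe

end Pool.Agent.Work.MP_7e5e3f_co
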