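import Mathlib
import Pool.Agent.Work.MP_7e5e3f_co.Defs

set_option autoImplicit false

namespace Pool.Agent.Work.MP_7e5e3f_co

open SimpleGraph

/-- The complete graph on four vertices. -/
abbrev KF : SimpleGraph (Fin 4) := ⊤

lemma KF_indep_card {S : Finset (Fin 4)} (hS : KF.IsIndepSet (S : Set (Fin 4))) : S.card ≤ 1 := by
  rw [Finset.card_le_one]
  intro a ha b hb
  by_contra hne
  exact hS (by exact_mod_cast ha) (by exact_mod_cast hb) hne (by simpa using hne)

lemma KF_indepNum : KF.indepNum ≤ 1 := by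
  obtain ⟨S, hS⟩ := KF.exists_isNIndepSet_indepNum
  have := KF_indep_card hS.isIndepSet
  rw [hS.card_eq] at this
  exact this

lemma KF_corona : corona KF = Set.univ := by
  ext v
  simp only [Set.mem_univ, iff_true]
  refine ⟨{v}, ⟨by simp [SimpleGraph.IsIndepSet], fun t ht => ?_⟩, by simp⟩
  simpa using KF_indep_card ht

lemma KF_corona_card : (corona KF).ncard = 4 := by
  rw [KF_corona, Set.ncard_univ]
  simp

/-- A perfect matching of `K_4`. -/
def KFM : KF.Subgraph where
  verts := Set.univ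
  Adj a b := (a = 0 ∧ b = 1) ∨ (a = 1 ∧ b = 0) ∨ (a = 2 ∧ b = 3) ∨ (a = 3 ∧ b = 2)
  adj_sub := by
    intro a b h
    rw [SimpleGraph.top_adj]
    rcases h with ⟨rfl, rfl⟩ | ⟨rfl, rfl⟩ | ⟨rfl, rfl⟩ | ⟨rfl, rfl⟩ <;> decide
  edge_vert := by intros; trivial
  symm := ⟨by
    intro a b h
    rcases h with ⟨rfl, rfl⟩ | ⟨rfl, rfl⟩ | ⟨rfl, rfl⟩ | ⟨rfl, rfl⟩ <;> simp⟩

lemma KFM_matching : KFM.IsMatching := by
  intro v _
  have h : ∀ v : Fin 4, ∃ w : Fin 4, ((v = 0 ∧ w = 1) ∨ (v = 1 ∧ w = 0) ∨ (v = 2 ∧ w = 3) ∨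
      (v = 3 ∧ w = 2)) ∧ ∀ y : Fin 4, ((v = 0 ∧ y = 1) ∨ (v = 1 ∧ y = 0) ∨ (v = 2 ∧ y = 3) ∨
      (v = 3 ∧ y = 2)) → y = w := by decide
  exact h v

lemma KFM_edges : 2 ≤ KFM.edgeSet.ncard := by
  have hsub : ({s(0, 1), s(2, 3)} : Set (Sym2 (Fin 4))) ⊆ KFM.edgeSet := by
    intro e he
    rcases he with rfl | rfl
    · rw [Subgraph.mem_edgeSet]; left; exact ⟨rfl, rfl⟩
    · rw [Subgraph.mem_edgeSet]; right; right; left; exact ⟨rfl, rfl⟩
  have h2 : ({s(0, 1), s(2, 3)} : Set (Sym2 (Fin 4))).ncard = 2 := by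
    rw [Set.ncard_pair]
    decide
  calc 2 = ({s(0, 1), s(2, 3)} : Set (Sym2 (Fin 4))).ncard := h2.symm
    _ ≤ _ := Set.ncard_le_ncard hsub (Set.toFinite _)

lemma KF_missed : missed KF = ∅ := by
  rw [Set.eq_empty_iff_forall_notMem]
  rintro v ⟨M, hM, hmax, hv⟩
  have h2 : 1 < M.edgeSet.ncard := lt_of_lt_of_le (by norm_num) (KFM_edges.trans (hmax _ KFM_matching))
  rw [Set.one_lt_ncard (Set.toFinite _)] at h2
  obtain ⟨e, he, f, hf, hef⟩ := h2
  induction e using Sym2.ind with
  | _ a b =>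
    induction f using Sym2.ind with
    | _ c d =>
      rw [Subgraph.mem_edgeSet] at he hf
      have hab : a ≠ b := he.ne
      have hcd : c ≠ d := hf.ne
      have key : ∀ {x y z : Fin 4}, M.Adj x y → M.Adj x z → y = z := by
        intro x y z hy hz
        exact (hM (M.edge_vert hy)).unique hy hz
      have hac : a ≠ c := by
        rintro rfl
        exact hef (by rw [key he hf])
      have had : a ≠ d := by
        rintro rfl
        exact hef (by rw [key he hf.symm, Sym2.eq_swap])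
      have hbc : b ≠ c := by
        rintro rfl
        exact hef (by rw [key he.symm hf, Sym2.eq_swap])
      have hbd : b ≠ d := by
        rintro rfl
        exact hef (by rw [key he.symm hf.symm])
      have hva : v ≠ a := by rintro rfl; exact hv (M.edge_vert he)
      have hvb : v ≠ b := by rintro rfl; exact hv (M.edge_vert he.symm)
      have hvc : v ≠ c := by rintro rfl; exact hv (M.edge_vert hf)
      have hvd : v ≠ d := by rintro rfl; exact hv (M.edge_vert hf.symm)
      omega

lemma oddCycles_of_isEmpty {V : Type*} [IsEmpty V] (G : SimpleGraph V) : oddCycles G = ∅ := by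
  rw [Set.eq_empty_iff_forall_notMem]
  rintro E ⟨v, _⟩
  exact isEmptyElim v

lemma KF_a : (oddCycles (KF.induce (missed KF))).ncard = 0 := by
  have : IsEmpty (missed KF) := by
    rw [KF_missed]
    exact Set.isEmpty_coe_sort.2 rfl
  rw [oddCycles_of_isEmpty]
  simp

/-- A cycle has at least three vertices. -/
lemma three_le_support {V : Type*} [Finite V] {G : SimpleGraph V} {v : V} {p : G.Walk v v}
    (hp : p.IsCycle) :
    3 ≤ {x | x ∈ p.support}.ncard := by
  classical
  have h1 : p.support.tail.toFinset.card = p.support.tail.length :=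
    List.toFinset_card_of_nodup hp.support_nodup
  have h2 : p.support.tail.length = p.length := by simp
  have h3 := hp.three_le_length
  have h4 : ((p.support.tail.toFinset : Finset V) : Set V) ⊆ {x | x ∈ p.support} := by
    intro x hx
    simp only [List.coe_toFinset, Set.mem_ofPred_eq] at hx
    exact List.mem_of_mem_tail hx
  have h5 := Set.ncard_le_ncard h4 (Set.toFinite _)
  rw [Set.ncard_coe_finset] at h5
  omega

lemma KF_b : maxDisjointOddCycles KF ≤ 1 := by
  unfold maxDisjointOddCycles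
  apply csSup_le'
  rintro n ⟨F, hn, hF, hd⟩
  by_contra hlt
  have hc : 1 < F.card := by omega
  rw [Finset.one_lt_card] at hc
  obtain ⟨S, hS, T, hT, hST⟩ := hc
  have hdis : Disjoint S T := hd (by exact_mod_cast hS) (by exact_mod_cast hT) hST
  obtain ⟨v, p, hp, _, hpS⟩ := hF S hS
  obtain ⟨w, q, hq, _, hqT⟩ := hF T hT
  have h1 := three_le_support hp
  have h2 := three_le_support hq
  rw [hpS] at h1
  rw [hqT] at h2
  have h3 := Set.ncard_union_eq hdis (Set.toFinite _) (Set.toFinite _)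
  have h4 : (S ∪ T).ncard ≤ (Set.univ : Set (Fin 4)).ncard :=
    Set.ncard_le_ncard (Set.subset_univ _) (Set.toFinite _)
  rw [Set.ncard_univ] at h4
  simp at h4
  omega

end Pool.Agent.Work.MP_7e5e3f_co
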